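import Pool.Agent.Helper227.Game9

set_option autoImplicit false

namespace Pool.Agent.Results.MP_de6bcb_lc.KTrivialOfLR

open Pool.Agent.Helper227

/-- `C ≤_LR D`: every set that is Martin-Löf random relative to `D` is Martin-Löf random
relative to `C`. -/
def LRle (C D : ℕ → Bool) : Prop := ∀ X : ℕ → Bool, MLR D X → MLR C X

/-- If `A ⊕ B ≤_LR B` and `B` is `A`-random then `A` is K-trivial (with respect to any universal
prefix-free machine `U`). -/
theorem result (U : List Bool →. List Bool) (hU : IsUniversal U) (A B : ℕ → Bool)
    (hLR : LRle (join A B) B) (hB : MLR A B) : KTrivial U A :=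
  lr_base hU hLR hB

end Pool.Agent.Results.MP_de6bcb_lc.KTrivialOfLR
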